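import Mathlib
import Pool.Agent.TH806.N4.Defs3

set_option autoImplicit false

namespace Pool.Agent.TH461.N4_S1

open Finset

/-- divisors of `m n` and coprime pairs of divisors -/
theorem card_div {m n : ℕ} (hm : m ≠ 0) (hn : n ≠ 0) :
    (m * n).divisors.card =
      ∑ c ∈ m.divisors, ∑ b ∈ n.divisors, if Nat.Coprime c b then 1 else 0 := by
  have h1 : ∑ c ∈ m.divisors, ∑ b ∈ n.divisors, (if Nat.Coprime c b then 1 else 0) =
      ∑ a ∈ m.divisors, ∑ b ∈ n.divisors, (if Nat.Coprime (m / a) b then 1 else 0) :=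
    (Nat.sum_div_divisors m (fun c => ∑ b ∈ n.divisors, if Nat.Coprime c b then 1 else 0)).symm
  rw [h1, ← Finset.sum_product', ← Finset.card_filter]
  refine Finset.card_nbij' (fun e => (Nat.gcd e m, e / Nat.gcd e m)) (fun x => x.1 * x.2)
    ?_ ?_ ?_ ?_
  · intro e he
    rw [Finset.mem_coe, Nat.mem_divisors] at he
    rw [Finset.mem_coe, Finset.mem_filter, Finset.mem_product, Nat.mem_divisors, Nat.mem_divisors]
    have hg : 0 < Nat.gcd e m := Nat.gcd_pos_of_pos_right _ (Nat.pos_of_ne_zero hm)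
    have hc : Nat.Coprime (e / Nat.gcd e m) (m / Nat.gcd e m) := Nat.coprime_div_gcd_div_gcd hg
    refine ⟨⟨⟨Nat.gcd_dvd_right _ _, hm⟩, ?_, hn⟩, hc.symm⟩
    refine hc.dvd_of_dvd_mul_left ?_
    have h2 : Nat.gcd e m * (e / Nat.gcd e m) ∣ Nat.gcd e m * (m / Nat.gcd e m * n) := by
      rw [Nat.mul_div_cancel' (Nat.gcd_dvd_left e m), ← mul_assoc,
        Nat.mul_div_cancel' (Nat.gcd_dvd_right e m)]
      exact he.1
    exact Nat.dvd_of_mul_dvd_mul_left hg h2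
  · rintro ⟨a, b⟩ hx
    rw [Finset.mem_coe, Finset.mem_filter, Finset.mem_product, Nat.mem_divisors,
      Nat.mem_divisors] at hx
    rw [Finset.mem_coe, Nat.mem_divisors]
    exact ⟨Nat.mul_dvd_mul hx.1.1.1 hx.1.2.1, mul_ne_zero hm hn⟩
  · intro e _
    exact Nat.mul_div_cancel' (Nat.gcd_dvd_left e m)
  · rintro ⟨a, b⟩ hx
    rw [Finset.mem_coe, Finset.mem_filter, Finset.mem_product, Nat.mem_divisors,
      Nat.mem_divisors] at hx
    obtain ⟨⟨⟨ha, -⟩, -, -⟩, hc⟩ := hx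
    simp only at ha hc
    have ha0 : 0 < a := Nat.pos_of_dvd_of_pos ha (Nat.pos_of_ne_zero hm)
    have h2 : Nat.gcd (a * b) m = a := by
      have h3 : m = a * (m / a) := (Nat.mul_div_cancel' ha).symm
      conv_lhs => rw [h3]
      rw [Nat.gcd_mul_left, Nat.Coprime.gcd_eq_one hc.symm, mul_one]
    simp only [h2, Prod.mk.injEq, true_and]
    exact Nat.mul_div_cancel_left b ha0

lemma sum_mult (N c : ℕ) (hc : 1 ≤ c) (f : ℕ → ℝ) :
    ∑ m ∈ Icc 1 N, (if c ∣ m then f m else 0) = ∑ k ∈ Icc 1 (N / c), f (c * k) := by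
  rw [← Finset.sum_filter]
  refine Finset.sum_nbij' (fun m => m / c) (fun k => c * k) ?_ ?_ ?_ ?_ ?_
  · intro m hm
    rw [Finset.mem_filter, Finset.mem_Icc] at hm
    obtain ⟨⟨h1, h2⟩, k, rfl⟩ := hm
    rw [Finset.mem_Icc, Nat.mul_div_cancel_left k hc, Nat.le_div_iff_mul_le hc]
    refine ⟨?_, by rwa [mul_comm]⟩
    rcases Nat.eq_zero_or_pos k with h | h
    · rw [h] at h1; omega
    · exact h
  · intro k hk
    rw [Finset.mem_Icc, Nat.le_div_iff_mul_le hc] at hk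
    rw [Finset.mem_filter, Finset.mem_Icc]
    refine ⟨⟨?_, by rw [mul_comm]; exact hk.2⟩, dvd_mul_right _ _⟩
    exact Nat.one_le_iff_ne_zero.2 (Nat.mul_ne_zero (by omega) (by omega))
  · intro m hm
    rw [Finset.mem_filter] at hm
    exact Nat.mul_div_cancel' hm.2
  · intro k _
    exact Nat.mul_div_cancel_left k hc
  · intro m hm
    rw [Finset.mem_filter] at hm
    rw [Nat.mul_div_cancel' hm.2]

lemma sum_dvd (N m : ℕ) (hm : m ∈ Icc 1 N) (f : ℕ → ℝ) :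
    ∑ c ∈ m.divisors, f c = ∑ c ∈ Icc 1 N, (if c ∣ m then f c else 0) := by
  rw [← Finset.sum_filter]
  refine Finset.sum_congr ?_ fun _ _ => rfl
  rw [Finset.mem_Icc] at hm
  ext c
  rw [Nat.mem_divisors, Finset.mem_filter, Finset.mem_Icc]
  constructor
  · rintro ⟨h1, h2⟩
    exact ⟨⟨Nat.pos_of_dvd_of_pos h1 (by omega), (Nat.le_of_dvd (by omega) h1).trans hm.2⟩, h1⟩
  · rintro ⟨-, h1⟩
    exact ⟨h1, by omega⟩

lemma sum_mu (k : ℕ) :
    ∑ g ∈ k.divisors, (ArithmeticFunction.moebius g : ℝ) = if k = 1 then 1 else 0 := by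
  have h := congrArg (fun f : ArithmeticFunction ℤ => f k)
    (ArithmeticFunction.coe_zeta_mul_moebius)
  simp only [ArithmeticFunction.coe_zeta_mul_apply] at h
  have h2 : ((∑ g ∈ k.divisors, ArithmeticFunction.moebius g : ℤ) : ℝ) =
      (((1 : ArithmeticFunction ℤ) k : ℤ) : ℝ) := by rw [h]
  rw [ArithmeticFunction.one_apply] at h2
  push_cast at h2
  rw [h2]

lemma cop_mu (N c b : ℕ) (hc : c ∈ Icc 1 N) :
    (if Nat.Coprime c b then (1 : ℝ) else 0) =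
      ∑ g ∈ Icc 1 N, (if g ∣ c then (if g ∣ b then (ArithmeticFunction.moebius g : ℝ) else 0) else 0) := by
  rw [Finset.mem_Icc] at hc
  have hg0 : Nat.gcd c b ≠ 0 := (Nat.gcd_pos_of_pos_left b (by omega)).ne'
  have h1 := sum_mu (Nat.gcd c b)
  have h2 : Nat.gcd c b ∈ Icc 1 N := by
    rw [Finset.mem_Icc]
    exact ⟨Nat.one_le_iff_ne_zero.2 hg0, (Nat.gcd_le_left b (by omega)).trans hc.2⟩
  rw [sum_dvd N _ h2] at h1
  have h3 : (if Nat.Coprime c b then (1 : ℝ) else 0) = if Nat.gcd c b = 1 then 1 else 0 := rfl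
  rw [h3, ← h1]
  refine Finset.sum_congr rfl fun g _ => ?_
  by_cases h4 : g ∣ c
  · by_cases h5 : g ∣ b
    · rw [if_pos h4, if_pos h5, if_pos (Nat.dvd_gcd h4 h5)]
    · rw [if_pos h4, if_neg h5, if_neg fun h => h5 (h.trans (Nat.gcd_dvd_right c b))]
  · rw [if_neg h4, if_neg fun h => h4 (h.trans (Nat.gcd_dvd_left c b))]

/-- harmonic numbers -/
noncomputable def Hn (n : ℕ) : ℝ := ∑ k ∈ Icc 1 n, 1 / (k : ℝ)

/-- `Σ_{c ≤ M} H(M/c)/c` -/
noncomputable def GG (M : ℕ) : ℝ := ∑ c ∈ Icc 1 M, 1 / (c : ℝ) * Hn (M / c)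

theorem S1_eq (N : ℕ) :
    ∑ m ∈ Icc 1 N, ∑ n ∈ Icc 1 N, ((m * n).divisors.card : ℝ) / ((m:ℝ) * n) =
      ∑ g ∈ Icc 1 N, (ArithmeticFunction.moebius g : ℝ) * (1 / (g : ℝ) * GG (N / g)) ^ 2 := by
  -- the inner sums
  set h : ℕ → ℝ := fun c => ∑ m ∈ Icc 1 N, (if c ∣ m then 1 / (m : ℝ) else 0) with hh
  have e1 : ∀ m ∈ Icc 1 N, ∀ n ∈ Icc 1 N, ((m * n).divisors.card : ℝ) / ((m:ℝ) * n) =
      ∑ c ∈ Icc 1 N, ∑ b ∈ Icc 1 N, (if Nat.Coprime c b then (1 : ℝ) else 0) *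
        ((if c ∣ m then 1 / (m : ℝ) else 0) * (if b ∣ n then 1 / (n : ℝ) else 0)) := by
    intro m hm n hn
    have hm' := Finset.mem_Icc.1 hm
    have hn' := Finset.mem_Icc.1 hn
    rw [card_div (by omega) (by omega)]
    push_cast
    rw [sum_dvd N m hm, Finset.sum_div]
    refine Finset.sum_congr rfl fun c _ => ?_
    rw [sum_dvd N n hn]
    by_cases h1 : c ∣ m
    · rw [if_pos h1, Finset.sum_div]
      refine Finset.sum_congr rfl fun b _ => ?_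
      rw [if_pos h1]
      by_cases h2 : b ∣ n
      · rw [if_pos h2, if_pos h2]
        ring
      · rw [if_neg h2, if_neg h2]
        ring
    · rw [if_neg h1, zero_div]
      symm
      refine Finset.sum_eq_zero fun b _ => ?_
      rw [if_neg h1]
      ring
  have e2 : ∑ m ∈ Icc 1 N, ∑ n ∈ Icc 1 N, ((m * n).divisors.card : ℝ) / ((m:ℝ) * n) =
      ∑ c ∈ Icc 1 N, ∑ b ∈ Icc 1 N, (if Nat.Coprime c b then (1 : ℝ) else 0) * (h c * h b) := by
    rw [Finset.sum_congr rfl fun m hm => Finset.sum_congr rfl fun n hn => e1 m hm n hn]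
    have s1 : ∀ m ∈ Icc 1 N, ∑ n ∈ Icc 1 N, ∑ c ∈ Icc 1 N, ∑ b ∈ Icc 1 N,
        (if Nat.Coprime c b then (1 : ℝ) else 0) *
        ((if c ∣ m then 1 / (m : ℝ) else 0) * (if b ∣ n then 1 / (n : ℝ) else 0)) =
        ∑ c ∈ Icc 1 N, ∑ b ∈ Icc 1 N, (if Nat.Coprime c b then (1 : ℝ) else 0) *
        ((if c ∣ m then 1 / (m : ℝ) else 0) * h b) := by
      intro m _
      rw [Finset.sum_comm]
      refine Finset.sum_congr rfl fun c _ => ?_
      rw [Finset.sum_comm]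
      refine Finset.sum_congr rfl fun b _ => ?_
      rw [hh, ← Finset.mul_sum, ← Finset.mul_sum]
    rw [Finset.sum_congr rfl s1, Finset.sum_comm]
    refine Finset.sum_congr rfl fun c _ => ?_
    rw [Finset.sum_comm]
    refine Finset.sum_congr rfl fun b _ => ?_
    rw [← Finset.mul_sum, ← Finset.sum_mul]
  rw [e2]
  have e3 : ∑ c ∈ Icc 1 N, ∑ b ∈ Icc 1 N, (if Nat.Coprime c b then (1 : ℝ) else 0) * (h c * h b) =
      ∑ g ∈ Icc 1 N, (ArithmeticFunction.moebius g : ℝ) *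
        (∑ c ∈ Icc 1 N, (if g ∣ c then h c else 0)) ^ 2 := by
    have s1 : ∀ c ∈ Icc 1 N, ∀ b ∈ Icc 1 N,
        (if Nat.Coprime c b then (1 : ℝ) else 0) * (h c * h b) =
        ∑ g ∈ Icc 1 N, (ArithmeticFunction.moebius g : ℝ) *
          ((if g ∣ c then h c else 0) * (if g ∣ b then h b else 0)) := by
      intro c hc b _
      rw [cop_mu N c b hc, Finset.sum_mul]
      refine Finset.sum_congr rfl fun g _ => ?_
      by_cases h4 : g ∣ c
      · by_cases h5 : g ∣ b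
        · rw [if_pos h4, if_pos h5, if_pos h4, if_pos h5]
        · rw [if_pos h4, if_neg h5, if_pos h4, if_neg h5]
          ring
      · rw [if_neg h4, if_neg h4]
        ring
    rw [Finset.sum_congr rfl fun c hc => Finset.sum_congr rfl fun b hb => s1 c hc b hb]
    have s2 : ∀ c ∈ Icc 1 N, ∑ b ∈ Icc 1 N, ∑ g ∈ Icc 1 N, (ArithmeticFunction.moebius g : ℝ) *
          ((if g ∣ c then h c else 0) * (if g ∣ b then h b else 0)) =
        ∑ g ∈ Icc 1 N, (ArithmeticFunction.moebius g : ℝ) *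
          ((if g ∣ c then h c else 0) * ∑ b ∈ Icc 1 N, (if g ∣ b then h b else 0)) := by
      intro c _
      rw [Finset.sum_comm]
      refine Finset.sum_congr rfl fun g _ => ?_
      rw [← Finset.mul_sum, ← Finset.mul_sum]
    rw [Finset.sum_congr rfl s2, Finset.sum_comm]
    refine Finset.sum_congr rfl fun g _ => ?_
    rw [← Finset.mul_sum, ← Finset.sum_mul, sq]
  rw [e3]
  refine Finset.sum_congr rfl fun g hg => ?_
  have hg1 : 1 ≤ g := (Finset.mem_Icc.1 hg).1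
  congr 2
  rw [sum_mult N g hg1]
  unfold GG
  rw [Finset.mul_sum]
  refine Finset.sum_congr rfl fun c hc => ?_
  have hc1 : 1 ≤ c := (Finset.mem_Icc.1 hc).1
  have hgc : 1 ≤ g * c := Nat.one_le_iff_ne_zero.2 (Nat.mul_ne_zero (by omega) (by omega))
  rw [hh]
  simp only
  rw [sum_mult N (g * c) hgc (fun m => 1 / (m : ℝ)), Nat.div_div_eq_div_mul]
  unfold Hn
  rw [← mul_assoc, Finset.mul_sum]
  refine Finset.sum_congr rfl fun k _ => ?_
  push_cast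
  rw [one_div_mul_one_div, one_div_mul_one_div]

lemma Hn_eq (n : ℕ) : Hn n = (harmonic n : ℝ) := by
  unfold Hn
  rw [harmonic_eq_sum_Icc]
  push_cast
  refine Finset.sum_congr rfl fun k _ => by rw [one_div]

lemma Hn_lower {y : ℝ} (hy : 0 ≤ y) : Real.log y ≤ Hn ⌊y⌋₊ := by
  rw [Hn_eq]; exact log_le_harmonic_floor y hy

lemma Hn_upper {y : ℝ} (hy : 1 ≤ y) : Hn ⌊y⌋₊ ≤ 1 + Real.log y := by
  rw [Hn_eq]; exact harmonic_floor_le_one_add_log y hy

/-- `Σ_{c ≤ M} log c / c` -/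
noncomputable def Lg (M : ℕ) : ℝ := ∑ c ∈ Icc 1 M, Real.log c / c

lemma log_succ_sub {M : ℕ} (hM : 1 ≤ M) :
    1 / ((M : ℝ) + 1) ≤ Real.log ((M : ℝ) + 1) - Real.log M ∧
      Real.log ((M : ℝ) + 1) - Real.log M ≤ 1 / M := by
  have hM0 : (0 : ℝ) < M := by exact_mod_cast hM
  rw [← Real.log_div (by positivity) (by positivity)]
  constructor
  · have h := Real.one_sub_inv_le_log_of_pos (x := ((M : ℝ) + 1) / M) (by positivity)
    refine le_trans (le_of_eq ?_) h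
    field_simp
    ring
  · have h := Real.log_le_sub_one_of_pos (x := ((M : ℝ) + 1) / M) (by positivity)
    refine h.trans (le_of_eq ?_)
    field_simp
    ring

lemma Lg_upper {M : ℕ} (hM : 1 ≤ M) : Lg M ≤ Real.log M ^ 2 / 2 + 1 / 2 * (1 - 1 / M) := by
  induction M, hM using Nat.le_induction with
  | base => simp [Lg]
  | succ M hM ih =>
    have hM0 : (0 : ℝ) < M := by exact_mod_cast hM
    obtain ⟨h1, h2⟩ := log_succ_sub hM
    have e : Lg (M + 1) = Lg M + Real.log ((M : ℝ) + 1) / ((M : ℝ) + 1) := by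
      unfold Lg
      rw [Finset.sum_Icc_succ_top (by omega)]
      push_cast
      rfl
    rw [e]
    push_cast
    set a := Real.log (M : ℝ)
    set b := Real.log ((M : ℝ) + 1)
    have ha : 0 ≤ a := Real.log_nonneg (by exact_mod_cast hM)
    have hab : 0 ≤ b - a := le_trans (by positivity) h1
    have h3 : 1 / ((M : ℝ) + 1) * (b + a) ≤ (b - a) * (b + a) :=
      mul_le_mul_of_nonneg_right h1 (by linarith)
    have h4 : b / ((M : ℝ) + 1) = 1 / ((M : ℝ) + 1) * (b + a) / 2 + 1 / ((M : ℝ) + 1) * (b - a) / 2 := by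
      ring
    have h5 : 1 / ((M : ℝ) + 1) * (b - a) ≤ 1 / ((M : ℝ) + 1) * (1 / M) :=
      mul_le_mul_of_nonneg_left h2 (by positivity)
    have h6 : 1 / ((M : ℝ) + 1) * (1 / M) = 1 / M - 1 / ((M : ℝ) + 1) := by
      field_simp
      ring
    rw [h4]
    nlinarith

lemma Lg_lower {M : ℕ} (hM : 1 ≤ M) : Real.log M ^ 2 / 2 - Real.log M ≤ Lg M := by
  induction M, hM using Nat.le_induction with
  | base => simp [Lg]
  | succ M hM ih =>
    have hM0 : (0 : ℝ) < M := by exact_mod_cast hM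
    obtain ⟨h1, h2⟩ := log_succ_sub hM
    have e : Lg (M + 1) = Lg M + Real.log ((M : ℝ) + 1) / ((M : ℝ) + 1) := by
      unfold Lg
      rw [Finset.sum_Icc_succ_top (by omega)]
      push_cast
      rfl
    rw [e]
    push_cast
    have hbM : Real.log ((M : ℝ) + 1) ≤ M := by
      have := Real.log_le_sub_one_of_pos (x := (M : ℝ) + 1) (by positivity)
      linarith
    set a := Real.log (M : ℝ)
    set b := Real.log ((M : ℝ) + 1)
    have ha : 0 ≤ a := Real.log_nonneg (by exact_mod_cast hM)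
    have hab : 0 ≤ b - a := le_trans (by positivity) h1
    have hb : 0 ≤ b := by linarith
    have h3 : (b - a) * ((b + a) / 2) ≤ 1 / M * b :=
      mul_le_mul h2 (by linarith) (by linarith) (by positivity)
    have h4 : 1 / (M : ℝ) * b - b / ((M : ℝ) + 1) = b * (1 / (M * ((M : ℝ) + 1))) := by
      field_simp
      ring
    have h5 : b * (1 / (M * ((M : ℝ) + 1))) ≤ M * (1 / (M * ((M : ℝ) + 1))) :=
      mul_le_mul_of_nonneg_right hbM (by positivity)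
    have h6 : (M : ℝ) * (1 / (M * ((M : ℝ) + 1))) = 1 / ((M : ℝ) + 1) := by field_simp
    nlinarith

lemma GG_bound {Y : ℝ} (hY : 1 ≤ Y) :
    |GG ⌊Y⌋₊ - Real.log Y ^ 2 / 2| ≤ 4 * (1 + Real.log Y) := by
  have hY0 : 0 < Y := by linarith
  set M := ⌊Y⌋₊ with hM
  have hM1 : 1 ≤ M := Nat.le_floor (by exact_mod_cast hY)
  have hMY : (M : ℝ) ≤ Y := Nat.floor_le hY0.le
  have hM0 : (0 : ℝ) < M := by exact_mod_cast hM1
  have hMY2 : Y ≤ 2 * M := by
    have h1 := Nat.lt_floor_add_one Y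
    rw [← hM] at h1
    have h2 : (1 : ℝ) ≤ M := by exact_mod_cast hM1
    linarith
  set ℓ := Real.log Y with hℓ
  have hℓ0 : 0 ≤ ℓ := Real.log_nonneg hY
  have hlM : Real.log M ≤ ℓ := Real.log_le_log hM0 hMY
  have hlM0 : 0 ≤ Real.log M := Real.log_nonneg (by exact_mod_cast hM1)
  have hlM2 : ℓ - 1 ≤ Real.log M := by
    have h1 : ℓ ≤ Real.log (2 * M) := Real.log_le_log hY0 hMY2
    rw [Real.log_mul (by norm_num) hM0.ne'] at h1
    have h2 : Real.log 2 ≤ 1 := by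
      have := Real.log_two_lt_d9
      linarith
    linarith
  have hterm : ∀ c ∈ Icc 1 M, ℓ - Real.log c ≤ Hn (M / c) ∧ Hn (M / c) ≤ 1 + (ℓ - Real.log c) := by
    intro c hc
    rw [Finset.mem_Icc] at hc
    have hc0 : (0 : ℝ) < c := by exact_mod_cast hc.1
    have hcY : (c : ℝ) ≤ Y := le_trans (by exact_mod_cast hc.2) hMY
    have h1 : M / c = ⌊Y / c⌋₊ := by rw [hM, Nat.floor_div_natCast]
    have h2 : 1 ≤ Y / c := by rwa [le_div_iff₀ hc0, one_mul]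
    have h3 : Real.log (Y / c) = ℓ - Real.log c := Real.log_div hY0.ne' hc0.ne'
    rw [h1, ← h3]
    exact ⟨Hn_lower (by positivity), Hn_upper h2⟩
  have hlow : ℓ * Hn M - Lg M ≤ GG M := by
    unfold GG Lg
    have : ℓ * Hn M - ∑ c ∈ Icc 1 M, Real.log c / c =
        ∑ c ∈ Icc 1 M, 1 / (c : ℝ) * (ℓ - Real.log c) := by
      unfold Hn
      rw [Finset.mul_sum, ← Finset.sum_sub_distrib]
      exact Finset.sum_congr rfl fun c _ => by ring
    rw [this]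
    exact Finset.sum_le_sum fun c hc => mul_le_mul_of_nonneg_left (hterm c hc).1 (by positivity)
  have hupp : GG M ≤ (1 + ℓ) * Hn M - Lg M := by
    unfold GG Lg
    have : (1 + ℓ) * Hn M - ∑ c ∈ Icc 1 M, Real.log c / c =
        ∑ c ∈ Icc 1 M, 1 / (c : ℝ) * (1 + (ℓ - Real.log c)) := by
      unfold Hn
      rw [Finset.mul_sum, ← Finset.sum_sub_distrib]
      exact Finset.sum_congr rfl fun c _ => by ring
    rw [this]
    exact Finset.sum_le_sum fun c hc => mul_le_mul_of_nonneg_left (hterm c hc).2 (by positivity)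
  have hH1 : ℓ ≤ Hn M := Hn_lower hY0.le
  have hH2 : Hn M ≤ 1 + ℓ := Hn_upper hY
  have hL1 := Lg_upper hM1
  have hL2 := Lg_lower hM1
  have hLM : (0 : ℝ) < 1 / M := by positivity
  rw [abs_le]
  constructor
  · have h1 : ℓ * ℓ ≤ ℓ * Hn M := mul_le_mul_of_nonneg_left hH1 hℓ0
    have h2 : Real.log M ^ 2 ≤ ℓ ^ 2 := pow_le_pow_left₀ hlM0 hlM 2
    nlinarith
  · have h1 : (1 + ℓ) * Hn M ≤ (1 + ℓ) * (1 + ℓ) := mul_le_mul_of_nonneg_left hH2 (by linarith)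
    have h2 : ℓ ^ 2 - 2 * ℓ ≤ Real.log M ^ 2 := by
      by_cases h : 1 ≤ ℓ
      · have h3 : (ℓ - 1) ^ 2 ≤ Real.log M ^ 2 := pow_le_pow_left₀ (by linarith) hlM2 2
        nlinarith
      · push Not at h
        nlinarith [sq_nonneg (Real.log M)]
    nlinarith

lemma sq_bound {G ℓ L : ℝ} (h0 : 0 ≤ ℓ) (h1 : ℓ ≤ L) (h : |G - ℓ ^ 2 / 2| ≤ 4 * (1 + ℓ)) :
    |G ^ 2 - L ^ 4 / 4| ≤ (16 + (L - ℓ)) * (1 + L) ^ 3 := by
  have hL : 0 ≤ L := h0.trans h1
  have e : G ^ 2 - L ^ 4 / 4 = (G - ℓ ^ 2 / 2) * (G + ℓ ^ 2 / 2) + (ℓ ^ 4 - L ^ 4) / 4 := by ring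
  have a1 : |G + ℓ ^ 2 / 2| ≤ 4 * (1 + ℓ) ^ 2 := by
    have : G + ℓ ^ 2 / 2 = (G - ℓ ^ 2 / 2) + ℓ ^ 2 := by ring
    rw [this]
    refine (abs_add_le _ _).trans ?_
    rw [abs_of_nonneg (sq_nonneg ℓ)]
    nlinarith
  have a2 : |(G - ℓ ^ 2 / 2) * (G + ℓ ^ 2 / 2)| ≤ 16 * (1 + L) ^ 3 := by
    rw [abs_mul]
    calc |G - ℓ ^ 2 / 2| * |G + ℓ ^ 2 / 2| ≤ (4 * (1 + ℓ)) * (4 * (1 + ℓ) ^ 2) :=
          mul_le_mul h a1 (abs_nonneg _) (by linarith)
      _ = 16 * (1 + ℓ) ^ 3 := by ring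
      _ ≤ 16 * (1 + L) ^ 3 :=
          mul_le_mul_of_nonneg_left (pow_le_pow_left₀ (by linarith) (by linarith) 3) (by norm_num)
  have a3 : |(ℓ ^ 4 - L ^ 4) / 4| ≤ (L - ℓ) * (1 + L) ^ 3 := by
    have h2 : ℓ ^ 4 ≤ L ^ 4 := pow_le_pow_left₀ h0 h1 4
    rw [abs_of_nonpos (by linarith)]
    have h3 : -((ℓ ^ 4 - L ^ 4) / 4) = (L - ℓ) * ((L ^ 3 + L ^ 2 * ℓ + L * ℓ ^ 2 + ℓ ^ 3) / 4) := by
      ring
    rw [h3]
    refine mul_le_mul_of_nonneg_left ?_ (by linarith)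
    have b1 : L ^ 2 * ℓ ≤ L ^ 2 * L := mul_le_mul_of_nonneg_left h1 (by positivity)
    have b2 : L * ℓ ^ 2 ≤ L * L ^ 2 :=
      mul_le_mul_of_nonneg_left (pow_le_pow_left₀ h0 h1 2) hL
    have b3 : ℓ ^ 3 ≤ L ^ 3 := pow_le_pow_left₀ h0 h1 3
    have b4 : L ^ 3 ≤ (1 + L) ^ 3 := pow_le_pow_left₀ hL (by linarith) 3
    nlinarith
  rw [e]
  refine (abs_add_le _ _).trans ?_
  linarith

lemma mu_hasSum : HasSum (fun n : ℕ => (ArithmeticFunction.moebius n : ℝ) / (n : ℝ) ^ 2)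
    (6 / Real.pi ^ 2) := by
  have h2 : (1 : ℝ) < (2 : ℂ).re := by norm_num
  have hs := (ArithmeticFunction.LSeriesSummable_moebius_iff.2 h2).LSeriesHasSum
  have hL : LSeries (fun n => ((ArithmeticFunction.moebius n : ℤ) : ℂ)) 2 =
      ((6 / Real.pi ^ 2 : ℝ) : ℂ) := by
    have h3 := LSeries_one_mul_Lseries_moebius h2
    rw [LSeries_one_eq_riemannZeta h2, riemannZeta_two] at h3
    have hpi : ((Real.pi : ℝ) : ℂ) ≠ 0 := by exact_mod_cast Real.pi_ne_zero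
    push_cast
    field_simp at h3 ⊢
    linear_combination h3
  rw [hL] at hs
  unfold LSeriesHasSum at hs
  rw [← Complex.hasSum_ofReal]
  refine hs.congr_fun ?_
  intro n
  rw [LSeries.term_def]
  by_cases hn : n = 0
  · rw [if_pos hn, hn]; simp
  · rw [if_neg hn]
    push_cast
    congr 1
    norm_cast

lemma mu_partial {N : ℕ} (hN : 1 ≤ N) :
    |(∑ g ∈ Icc 1 N, (ArithmeticFunction.moebius g : ℝ) / (g : ℝ) ^ 2) - 6 / Real.pi ^ 2| ≤
      1 / (N : ℝ) := by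
  set f : ℕ → ℝ := fun n => (ArithmeticFunction.moebius n : ℝ) / (n : ℝ) ^ 2 with hf
  have hlim := mu_hasSum.tendsto_sum_nat
  have hrange : ∀ K : ℕ, ∑ g ∈ range (K + 1), f g = ∑ g ∈ Icc 1 K, f g := by
    intro K
    rw [Finset.range_eq_Ico, Finset.sum_eq_sum_Ico_succ_bot (by omega)]
    have h0 : f 0 = 0 := by simp [hf]
    rw [h0, zero_add]
    rfl
  have hlim1 : Filter.Tendsto (fun K : ℕ => ∑ g ∈ Icc 1 K, f g) Filter.atTop
      (nhds (6 / Real.pi ^ 2 : ℝ)) := by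
    have h7 := hlim.comp (Filter.tendsto_add_atTop_nat 1)
    refine h7.congr ?_
    intro K
    exact hrange K
  have hlim2 : Filter.Tendsto (fun K : ℕ => |(∑ g ∈ Icc 1 N, f g) - (∑ g ∈ Icc 1 K, f g)|) Filter.atTop
      (nhds |(∑ g ∈ Icc 1 N, f g) - (6 / Real.pi ^ 2 : ℝ)|) :=
    (tendsto_const_nhds.sub hlim1).abs
  refine le_of_tendsto hlim2 ?_
  filter_upwards [Filter.eventually_ge_atTop N] with K hK
  have h1 : ∑ g ∈ Icc 1 K, f g = ∑ g ∈ Icc 1 N, f g + ∑ g ∈ Ioc N K, f g := by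
    rw [← Finset.sum_union]
    · congr 1
      ext g
      simp only [Finset.mem_Icc, Finset.mem_union, Finset.mem_Ioc]
      omega
    · rw [Finset.disjoint_left]
      intro g h1 h2
      rw [Finset.mem_Icc] at h1
      rw [Finset.mem_Ioc] at h2
      omega
  rw [h1]
  have h2 : |∑ g ∈ Icc 1 N, f g - (∑ g ∈ Icc 1 N, f g + ∑ g ∈ Ioc N K, f g)| =
      |∑ g ∈ Ioc N K, f g| := by
    rw [← abs_neg]
    congr 1
    ring
  rw [h2]
  refine (Finset.abs_sum_le_sum_abs _ _).trans ?_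
  have h3 : ∀ g ∈ Ioc N K, |f g| ≤ ((g : ℝ) ^ 2)⁻¹ := by
    intro g _
    rw [hf]
    simp only
    rw [abs_div, abs_of_nonneg (by positivity : (0 : ℝ) ≤ (g : ℝ) ^ 2), div_eq_mul_inv]
    have h4 : |(ArithmeticFunction.moebius g : ℝ)| ≤ 1 := by
      exact_mod_cast ArithmeticFunction.abs_moebius_le_one (n := g)
    calc |(ArithmeticFunction.moebius g : ℝ)| * ((g : ℝ) ^ 2)⁻¹ ≤ 1 * ((g : ℝ) ^ 2)⁻¹ :=
          mul_le_mul_of_nonneg_right h4 (by positivity)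
      _ = _ := one_mul _
  refine (Finset.sum_le_sum h3).trans ?_
  refine (sum_Ioc_inv_sq_le_sub (α := ℝ) (by omega) hK).trans ?_
  rw [one_div]
  have : (0 : ℝ) ≤ (K : ℝ)⁻¹ := by positivity
  linarith

lemma sum_err : ∃ K : ℝ, 0 < K ∧ ∀ N : ℕ,
    ∑ g ∈ Icc 1 N, 1 / (g : ℝ) ^ 2 * (16 + Real.log g) ≤ K := by
  have hs : Summable fun n : ℕ => 1 / (n : ℝ) ^ (3 / 2 : ℝ) :=
    Real.summable_one_div_nat_rpow.2 (by norm_num)
  refine ⟨18 * (∑' n : ℕ, 1 / (n : ℝ) ^ (3 / 2 : ℝ)) + 1, ?_, fun N => ?_⟩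
  · have : 0 ≤ ∑' n : ℕ, 1 / (n : ℝ) ^ (3 / 2 : ℝ) := tsum_nonneg fun n => by positivity
    linarith
  · have h1 : ∀ g ∈ Icc 1 N, 1 / (g : ℝ) ^ 2 * (16 + Real.log g) ≤
        18 * (1 / (g : ℝ) ^ (3 / 2 : ℝ)) := by
      intro g hg
      have hg1 : (1 : ℝ) ≤ g := by exact_mod_cast (Finset.mem_Icc.1 hg).1
      have hg0 : (0 : ℝ) < g := by linarith
      have h2 : Real.log g ≤ 2 * (g : ℝ) ^ (1 / 2 : ℝ) := by
        have := Real.log_le_rpow_div hg0.le (by norm_num : (0 : ℝ) < 1 / 2)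
        linarith
      have h3 : (1 : ℝ) ≤ (g : ℝ) ^ (1 / 2 : ℝ) := Real.one_le_rpow hg1 (by norm_num)
      have h4 : (g : ℝ) ^ 2 = (g : ℝ) ^ (1 / 2 : ℝ) * (g : ℝ) ^ (3 / 2 : ℝ) := by
        rw [← Real.rpow_add hg0]
        norm_num
      have h5 : 16 + Real.log g ≤ 18 * (g : ℝ) ^ (1 / 2 : ℝ) := by linarith
      calc 1 / (g : ℝ) ^ 2 * (16 + Real.log g) ≤ 1 / (g : ℝ) ^ 2 * (18 * (g : ℝ) ^ (1 / 2 : ℝ)) :=
            mul_le_mul_of_nonneg_left h5 (by positivity)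
        _ = 18 * (1 / (g : ℝ) ^ (3 / 2 : ℝ)) := by
          rw [h4]
          field_simp
    refine (Finset.sum_le_sum h1).trans ?_
    rw [← Finset.mul_sum]
    have h2 : ∑ g ∈ Icc 1 N, 1 / (g : ℝ) ^ (3 / 2 : ℝ) ≤ ∑' n : ℕ, 1 / (n : ℝ) ^ (3 / 2 : ℝ) :=
      hs.sum_le_tsum _ fun n _ => by positivity
    linarith

lemma log_four {X : ℝ} (hX : 1 ≤ X) : Real.log X ^ 4 ≤ 256 * X := by
  have h0 : 0 < X := by linarith
  have h1 : Real.log X ≤ 4 * X ^ (1 / 4 : ℝ) := by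
    have := Real.log_le_rpow_div h0.le (by norm_num : (0 : ℝ) < 1 / 4)
    linarith
  have h2 : Real.log X ^ 4 ≤ (4 * X ^ (1 / 4 : ℝ)) ^ 4 := pow_le_pow_left₀ (Real.log_nonneg hX) h1 4
  refine h2.trans (le_of_eq ?_)
  have h3 : (X ^ (1 / 4 : ℝ)) ^ 4 = X := by
    rw [← Real.rpow_natCast (X ^ (1 / 4 : ℝ)) 4, ← Real.rpow_mul h0.le]
    norm_num
  rw [mul_pow, h3]
  norm_num

theorem main_S1 : ∃ C : ℝ, 0 < C ∧ ∀ X : ℝ, 1 ≤ X →
    |(∑ m ∈ Icc 1 ⌊X⌋₊, ∑ n ∈ Icc 1 ⌊X⌋₊, ((m * n).divisors.card : ℝ) / ((m:ℝ) * n)) -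
      3 / (2 * Real.pi ^ 2) * Real.log X ^ 4| ≤ C * (1 + Real.log X) ^ 3 := by
  obtain ⟨K, hK0, hK⟩ := sum_err
  refine ⟨K + 128, by linarith, fun X hX => ?_⟩
  have hX0 : 0 < X := by linarith
  set N := ⌊X⌋₊ with hN
  have hN1 : 1 ≤ N := Nat.le_floor (by exact_mod_cast hX)
  have hNX : (N : ℝ) ≤ X := Nat.floor_le hX0.le
  have hN0 : (0 : ℝ) < N := by exact_mod_cast hN1
  have hNX2 : X ≤ 2 * N := by
    have h1 := Nat.lt_floor_add_one X
    rw [← hN] at h1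
    have h2 : (1 : ℝ) ≤ N := by exact_mod_cast hN1
    linarith
  set L := Real.log X with hL
  have hL0 : 0 ≤ L := Real.log_nonneg hX
  rw [S1_eq N]
  have e1 : ∑ g ∈ Icc 1 N, (ArithmeticFunction.moebius g : ℝ) * (1 / (g : ℝ) * GG (N / g)) ^ 2 =
      L ^ 4 / 4 * (∑ g ∈ Icc 1 N, (ArithmeticFunction.moebius g : ℝ) / (g : ℝ) ^ 2) +
      ∑ g ∈ Icc 1 N, (ArithmeticFunction.moebius g : ℝ) / (g : ℝ) ^ 2 *
        (GG (N / g) ^ 2 - L ^ 4 / 4) := by
    rw [Finset.mul_sum, ← Finset.sum_add_distrib]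
    refine Finset.sum_congr rfl fun g _ => ?_
    ring
  have e2 : |∑ g ∈ Icc 1 N, (ArithmeticFunction.moebius g : ℝ) / (g : ℝ) ^ 2 *
        (GG (N / g) ^ 2 - L ^ 4 / 4)| ≤ K * (1 + L) ^ 3 := by
    refine (Finset.abs_sum_le_sum_abs _ _).trans ?_
    refine le_trans ?_ (mul_le_mul_of_nonneg_right (hK N) (by positivity))
    rw [Finset.sum_mul]
    refine Finset.sum_le_sum fun g hg => ?_
    rw [Finset.mem_Icc] at hg
    have hg0 : (0 : ℝ) < g := by exact_mod_cast hg.1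
    have hg1 : (1 : ℝ) ≤ g := by exact_mod_cast hg.1
    have hgX : (g : ℝ) ≤ X := le_trans (by exact_mod_cast hg.2) hNX
    have h1 : N / g = ⌊X / g⌋₊ := by rw [hN, Nat.floor_div_natCast]
    have h2 : 1 ≤ X / g := by rwa [le_div_iff₀ hg0, one_mul]
    have h3 : Real.log (X / g) = L - Real.log g := Real.log_div hX0.ne' hg0.ne'
    have h4 := GG_bound h2
    rw [← h1] at h4
    have h5 := sq_bound (L := L) (Real.log_nonneg h2) (by
      rw [h3]
      have := Real.log_nonneg hg1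
      linarith) h4
    have h6 : L - Real.log (X / g) = Real.log g := by rw [h3]; ring
    rw [h6] at h5
    have h7 : |(ArithmeticFunction.moebius g : ℝ)| ≤ 1 := by
      exact_mod_cast ArithmeticFunction.abs_moebius_le_one (n := g)
    rw [abs_mul, abs_div, abs_of_nonneg (by positivity : (0 : ℝ) ≤ (g : ℝ) ^ 2), mul_assoc]
    exact mul_le_mul (div_le_div_of_nonneg_right h7 (by positivity)) h5 (abs_nonneg _)
      (by positivity)
  have e3 := mu_partial hN1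
  have e4 : |L ^ 4 / 4 * (∑ g ∈ Icc 1 N, (ArithmeticFunction.moebius g : ℝ) / (g : ℝ) ^ 2) -
      3 / (2 * Real.pi ^ 2) * L ^ 4| ≤ 128 * (1 + L) ^ 3 := by
    have h1 : L ^ 4 / 4 * (∑ g ∈ Icc 1 N, (ArithmeticFunction.moebius g : ℝ) / (g : ℝ) ^ 2) -
        3 / (2 * Real.pi ^ 2) * L ^ 4 = L ^ 4 / 4 *
        ((∑ g ∈ Icc 1 N, (ArithmeticFunction.moebius g : ℝ) / (g : ℝ) ^ 2) - 6 / Real.pi ^ 2) := by
      have hpi : Real.pi ≠ 0 := Real.pi_ne_zero
      field_simp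
      ring
    rw [h1, abs_mul, abs_of_nonneg (by positivity : 0 ≤ L ^ 4 / 4)]
    have h2 : L ^ 4 / 4 * |(∑ g ∈ Icc 1 N, (ArithmeticFunction.moebius g : ℝ) / (g : ℝ) ^ 2) -
        6 / Real.pi ^ 2| ≤ (256 * X) / 4 * (1 / N) :=
      mul_le_mul (div_le_div_of_nonneg_right (log_four hX) (by norm_num)) e3 (abs_nonneg _)
        (by positivity)
    refine h2.trans ?_
    have h3 : 256 * X / 4 * (1 / (N : ℝ)) ≤ 128 := by
      rw [mul_one_div, div_le_iff₀ hN0]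
      linarith
    have h4 : (1 : ℝ) ≤ (1 + L) ^ 3 := one_le_pow₀ (by linarith)
    linarith
  rw [e1]
  have e5 : L ^ 4 / 4 * (∑ g ∈ Icc 1 N, (ArithmeticFunction.moebius g : ℝ) / (g : ℝ) ^ 2) +
      ∑ g ∈ Icc 1 N, (ArithmeticFunction.moebius g : ℝ) / (g : ℝ) ^ 2 *
        (GG (N / g) ^ 2 - L ^ 4 / 4) - 3 / (2 * Real.pi ^ 2) * L ^ 4 =
      (L ^ 4 / 4 * (∑ g ∈ Icc 1 N, (ArithmeticFunction.moebius g : ℝ) / (g : ℝ) ^ 2) -
        3 / (2 * Real.pi ^ 2) * L ^ 4) +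
      ∑ g ∈ Icc 1 N, (ArithmeticFunction.moebius g : ℝ) / (g : ℝ) ^ 2 *
        (GG (N / g) ^ 2 - L ^ 4 / 4) := by ring
  rw [e5]
  refine (abs_add_le _ _).trans ?_
  linarith

theorem t_S1 : Pool.Agent.TH806.N4.P_S1 := main_S1

end Pool.Agent.TH461.N4_S1
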